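import Pool.Agent.Lib.MP_4d044e_co.CF.All

/-!
# The coefficient of fragmentability of claw-free graphs of bounded degree

For every `d ≥ 4` the coefficient of fragmentability of the class of the claw-free graphs of maximum
degree at most `d` is `(d-2)/(d+2)` for even `d` and `1 - 4(d+2)/((d+1)(d+3)) < (d-2)/(d+2)` for odd
`d`, and for every larger `ε` the class is `ε`-fragmentable.
-/

namespace Pool.Agent.Results.MP_4d044e_co.ClawFreeExact

open Pool.Agent.Lib.MP4d044e

theorem result : ∀ d : ℕ, 4 ≤ d →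
    (Even d → coef (ClassCF d) = ((d : ℝ) - 2) / ((d : ℝ) + 2)) ∧
    (Odd d → coef (ClassCF d) = 1 - 4 * ((d : ℝ) + 2) / (((d : ℝ) + 1) * ((d : ℝ) + 3)) ∧
      coef (ClassCF d) < ((d : ℝ) - 2) / ((d : ℝ) + 2)) ∧
    (∀ ε : ℝ, coef (ClassCF d) < ε → Fragmentable (ClassCF d) ε) :=
  mainCF

end Pool.Agent.Results.MP_4d044e_co.ClawFreeExact
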