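import Pool.Agent.Lib.MP_4d044e_co.TX.WRAPX

/-!
# MP_4d044e_co: the exact coefficient of fragmentability of the graphs of maximum degree at most `d`
for all large `d`

`(d-2)/(d+2)` for even `d` and `1 - 4(d+2)/((d+1)(d+3)) < (d-2)/(d+2)` for odd `d`.
-/

namespace Pool.Agent.Results.MP_4d044e_co.ExactLargeDegree

open Pool.Agent.Lib.MP4d044e

theorem result : ∃ d0 : ℕ, ∀ d : ℕ, d0 ≤ d →
    (Even d → coef (ClassMD d) = ((d : ℝ) - 2) / ((d : ℝ) + 2)) ∧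
    (Odd d → coef (ClassMD d) = 1 - 4 * ((d : ℝ) + 2) / (((d : ℝ) + 1) * ((d : ℝ) + 3)) ∧
      coef (ClassMD d) < ((d : ℝ) - 2) / ((d : ℝ) + 2)) ∧
    (∀ ε : ℝ, coef (ClassMD d) < ε → Fragmentable (ClassMD d) ε) :=
  Pool.Agent.Lib.MP_4d044e_co.TX.exact_value

end Pool.Agent.Results.MP_4d044e_co.ExactLargeDegree
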