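import Pool.Agent.Lib.MP_4d044e_co.UB.All

/-!
# An upper bound for the coefficient of fragmentability of the graphs of maximum degree at most d

For every `d ≥ 5` the coefficient of fragmentability of the class of all graphs of maximum degree at
most `d` is at most `(d-2)(2d-5)/(2(d²-d-4))`. This number is smaller than the upper bound `g(d)` of
Edwards and Farr, and smaller than `1 - 7/(2(d+2))`.
-/

namespace Pool.Agent.Results.MP_4d044e_co.UpperBound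

open Pool.Agent.Lib.MP4d044e

theorem result : ∀ d : ℕ, 5 ≤ d →
    (∀ ε : ℝ, ((d : ℝ) - 2) * (2 * d - 5) / (2 * ((d : ℝ) ^ 2 - d - 4)) < ε →
      Fragmentable (ClassMD d) ε) ∧
    coef (ClassMD d) ≤ ((d : ℝ) - 2) * (2 * d - 5) / (2 * ((d : ℝ) ^ 2 - d - 4)) ∧
    ((d : ℝ) - 2) * (2 * d - 5) / (2 * ((d : ℝ) ^ 2 - d - 4)) < 1 - 7 / (2 * ((d : ℝ) + 2)) ∧
    ∀ g : ℕ → ℝ, g 2 = 0 → g 3 = 1 / 4 →
      (∀ k : ℕ, 4 ≤ k → (k : ℝ) * g k = ((k : ℝ) - 2) * g (k - 1) + g (k - 2) + 1) →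
      ((d : ℝ) - 2) * (2 * d - 5) / (2 * ((d : ℝ) ^ 2 - d - 4)) < g d :=
  UB.mainUB

end Pool.Agent.Results.MP_4d044e_co.UpperBound
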